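import Mathlib

/-!
# Symmetric injective tensor powers of almost square spaces are almost square
-/

open Filter Topology Metric Set TensorProduct
open scoped ENNReal

namespace Pool.Agent.Results.MP_25d2c4_an.SymInjASQ

/-- `X` is almost square. -/
def ASQ (X : Type*) [NormedAddCommGroup X] : Prop :=
  ∀ (k : ℕ) (x : Fin k → X), (∀ i, ‖x i‖ = 1) → ∀ ε : ℝ, 0 < ε →
    ∃ y : X, ‖y‖ = 1 ∧ ∀ i, ‖x i + y‖ ≤ 1 + ε

variable (𝕜 X : Type*) [RCLike 𝕜] [NormedAddCommGroup X] [NormedSpace 𝕜 X] (N : ℕ)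

/-- The subspace of the `N`-fold algebraic tensor product of `X` spanned by the elements
`x ⊗ ⋯ ⊗ x`. -/
def symTensor : Submodule 𝕜 (PiTensorProduct 𝕜 (fun _ : Fin N => X)) :=
  Submodule.span 𝕜 (Set.range fun x : X => PiTensorProduct.tprod 𝕜 (fun _ : Fin N => x))

/-- The space `⊗_{s,N} X` as a type of its own. -/
def SymT : Type _ := symTensor 𝕜 X N

noncomputable instance : AddCommGroup (SymT 𝕜 X N) :=
  inferInstanceAs (AddCommGroup (symTensor 𝕜 X N))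

noncomputable instance : Module 𝕜 (SymT 𝕜 X N) := inferInstanceAs (Module 𝕜 (symTensor 𝕜 X N))

variable {𝕜 X N}

/-- The multilinear map `(x_1, …, x_N) ↦ φ(x_1) ⋯ φ(x_N)`. -/
noncomputable def powMulti (φ : StrongDual 𝕜 X) : MultilinearMap 𝕜 (fun _ : Fin N => X) 𝕜 where
  toFun x := ∏ i, φ (x i)
  map_update_add' m i x y :=
    ((MultilinearMap.mkPiAlgebra 𝕜 (Fin N) 𝕜).compLinearMap
      fun _ => (φ : X →ₗ[𝕜] 𝕜)).map_update_add' m i x y
  map_update_smul' m i c x :=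
    ((MultilinearMap.mkPiAlgebra 𝕜 (Fin N) 𝕜).compLinearMap
      fun _ => (φ : X →ₗ[𝕜] 𝕜)).map_update_smul' m i c x

/-- The linear functional `φ ⊗ ⋯ ⊗ φ` on the algebraic tensor product. -/
noncomputable def powFun (φ : StrongDual 𝕜 X) :
    PiTensorProduct 𝕜 (fun _ : Fin N => X) →ₗ[𝕜] 𝕜 :=
  PiTensorProduct.lift (powMulti φ)

lemma powFun_tprod (φ : StrongDual 𝕜 X) (x : X) :
    powFun φ (PiTensorProduct.tprod 𝕜 (fun _ : Fin N => x)) = (φ x) ^ N := by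
  rw [powFun, PiTensorProduct.lift.tprod]
  simp [powMulti]

/-- The functional `φ ⊗ ⋯ ⊗ φ` restricted to `⊗_{s,N} X`. -/
noncomputable def powEval (φ : StrongDual 𝕜 X) : SymT 𝕜 X N →ₗ[𝕜] 𝕜 :=
  (powFun φ).comp (symTensor 𝕜 X N).subtype

/-- Every element of `⊗_{s,N} X` only involves finitely many vectors. -/
lemma exists_repr (u : SymT 𝕜 X N) : ∃ c : X →₀ 𝕜, ∀ φ : StrongDual 𝕜 X,
    powEval φ u = c.sum fun x a => a * (φ x) ^ N := by
  obtain ⟨u, hu⟩ := u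
  obtain ⟨c, hc⟩ := (Finsupp.mem_span_range_iff_exists_finsupp).1 hu
  refine ⟨c, fun φ => ?_⟩
  show powFun φ u = _
  rw [← hc, Finsupp.sum, map_sum, Finsupp.sum]
  apply Finset.sum_congr rfl
  intro x _
  rw [map_smul, powFun_tprod, smul_eq_mul]

lemma powEval_bound (u : SymT 𝕜 X N) : ∃ C : ℝ, ∀ φ : StrongDual 𝕜 X, ‖φ‖ ≤ 1 →
    ‖powEval φ u‖ ≤ C := by
  obtain ⟨c, hc⟩ := exists_repr u
  refine ⟨c.sum fun x a => ‖a‖ * ‖x‖ ^ N, fun φ hφ => ?_⟩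
  rw [hc, Finsupp.sum, Finsupp.sum]
  refine (norm_sum_le _ _).trans (Finset.sum_le_sum fun x _ => ?_)
  rw [norm_mul, norm_pow]
  apply mul_le_mul_of_nonneg_left _ (norm_nonneg _)
  apply pow_le_pow_left₀ (norm_nonneg _)
  calc ‖φ x‖ ≤ ‖φ‖ * ‖x‖ := φ.le_opNorm x
    _ ≤ 1 * ‖x‖ := mul_le_mul_of_nonneg_right hφ (norm_nonneg _)
    _ = ‖x‖ := one_mul _

/-- The symmetric injective norm `‖u‖ = sup |⟨φ ⊗ ⋯ ⊗ φ, u⟩|`, the supremum over the dual unit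
ball. -/
noncomputable def symNorm (u : SymT 𝕜 X N) : ℝ :=
  ⨆ φ : {φ : StrongDual 𝕜 X // ‖φ‖ ≤ 1}, ‖powEval φ.1 u‖

lemma symNorm_le_iff (u : SymT 𝕜 X N) {C : ℝ} (hC : 0 ≤ C) :
    symNorm u ≤ C ↔ ∀ φ : StrongDual 𝕜 X, ‖φ‖ ≤ 1 → ‖powEval φ u‖ ≤ C := by
  constructor
  · intro h φ hφ
    refine le_trans ?_ h
    obtain ⟨C', hC'⟩ := powEval_bound u
    exact le_ciSup (f := fun φ : {φ : StrongDual 𝕜 X // ‖φ‖ ≤ 1} => ‖powEval φ.1 u‖)
      ⟨C', by rintro _ ⟨ψ, rfl⟩; exact hC' ψ.1 ψ.2⟩ ⟨φ, hφ⟩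
  · intro h
    exact Real.iSup_le (fun φ => h φ.1 φ.2) hC

lemma symNorm_nonneg (u : SymT 𝕜 X N) : 0 ≤ symNorm u :=
  Real.iSup_nonneg fun _ => norm_nonneg _

lemma powEval_le_symNorm (u : SymT 𝕜 X N) (φ : StrongDual 𝕜 X) (hφ : ‖φ‖ ≤ 1) :
    ‖powEval φ u‖ ≤ symNorm u := (symNorm_le_iff u (symNorm_nonneg u)).1 le_rfl φ hφ

variable (𝕜 X N) in
/-- The symmetric injective norm as a seminorm. -/
noncomputable def symSeminorm : AddGroupSeminorm (SymT 𝕜 X N) where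
  toFun := symNorm
  map_zero' := le_antisymm ((symNorm_le_iff _ le_rfl).2 fun φ _ => by rw [map_zero, norm_zero])
    (symNorm_nonneg _)
  add_le' u v := (symNorm_le_iff _ (add_nonneg (symNorm_nonneg u) (symNorm_nonneg v))).2
    fun φ hφ => by
      rw [map_add]
      exact (norm_add_le _ _).trans
        (add_le_add (powEval_le_symNorm u φ hφ) (powEval_le_symNorm v φ hφ))
  neg' u := by simp only [symNorm, map_neg, norm_neg]

noncomputable instance : SeminormedAddCommGroup (SymT 𝕜 X N) :=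
  (symSeminorm 𝕜 X N).toSeminormedAddCommGroup

/-- The formula for the norm. -/
lemma norm_def (u : SymT 𝕜 X N) :
    ‖u‖ = ⨆ φ : {φ : StrongDual 𝕜 X // ‖φ‖ ≤ 1}, ‖powEval φ.1 u‖ := rfl

noncomputable instance : NormedSpace 𝕜 (SymT 𝕜 X N) where
  norm_smul_le a u := (symNorm_le_iff _ (mul_nonneg (norm_nonneg _) (symNorm_nonneg u))).2
    fun φ hφ => by
      rw [map_smul, smul_eq_mul, norm_mul]
      exact mul_le_mul_of_nonneg_left (powEval_le_symNorm u φ hφ) (norm_nonneg _)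

lemma norm_le_iff (u : SymT 𝕜 X N) {C : ℝ} (hC : 0 ≤ C) :
    ‖u‖ ≤ C ↔ ∀ φ : StrongDual 𝕜 X, ‖φ‖ ≤ 1 → ‖powEval φ u‖ ≤ C := symNorm_le_iff u hC

variable (𝕜 X N) in
/-- The symmetric injective tensor product: the completion of `⊗_{s,N} X`. -/
abbrev SymInj : Type _ := UniformSpace.Completion (SymT 𝕜 X N)

lemma powEval_congr (u : SymT 𝕜 X N) : ∃ F : Submodule 𝕜 X, FiniteDimensional 𝕜 F ∧
    ∀ φ ψ : StrongDual 𝕜 X, (∀ x ∈ F, φ x = ψ x) → powEval φ u = powEval ψ u := by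
  obtain ⟨c, hc⟩ := exists_repr u
  refine ⟨Submodule.span 𝕜 (c.support : Set X), FiniteDimensional.span_finset 𝕜 _, ?_⟩
  intro φ ψ h
  rw [hc, hc, Finsupp.sum, Finsupp.sum]
  apply Finset.sum_congr rfl
  intro x hx
  rw [h x (Submodule.subset_span hx)]

lemma powEval_smul (a : 𝕜) (φ : StrongDual 𝕜 X) (u : SymT 𝕜 X N) :
    powEval (a • φ) u = a ^ N * powEval φ u := by
  obtain ⟨c, hc⟩ := exists_repr u
  rw [hc, hc, Finsupp.sum, Finsupp.sum, Finset.mul_sum]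
  apply Finset.sum_congr rfl
  intro x _
  rw [smul_apply, smul_eq_mul, mul_pow]
  ring

/-- The estimate `|P(φ)| ≤ ‖φ|_F‖^N ‖u‖`. -/
lemma powEval_le (hN : N ≠ 0) (u : SymT 𝕜 X N) (F : Submodule 𝕜 X)
    (hF : ∀ φ ψ : StrongDual 𝕜 X, (∀ x ∈ F, φ x = ψ x) → powEval φ u = powEval ψ u)
    (φ : StrongDual 𝕜 X) (r : ℝ) (hr : 0 ≤ r) (hφ : ∀ x ∈ F, ‖φ x‖ ≤ r * ‖x‖) :
    ‖powEval φ u‖ ≤ r ^ N * ‖u‖ := by
  obtain ⟨ψ, hψ1, hψ2⟩ := exists_extension_norm_eq F (φ.comp F.subtypeL)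
  have hψr : ‖ψ‖ ≤ r := by
    rw [hψ2]
    apply ContinuousLinearMap.opNorm_le_bound _ hr
    intro x
    exact hφ x x.2
  have e1 : powEval φ u = powEval ψ u := hF φ ψ fun x hx => (hψ1 ⟨x, hx⟩).symm
  rw [e1]
  rcases eq_or_lt_of_le hr with h0 | h0
  · have hψ0 : ψ = 0 := by
      rw [← norm_le_zero_iff, h0]; exact hψr
    have e2 : powEval ψ u = 0 := by
      rw [hψ0, ← zero_smul 𝕜 (0 : StrongDual 𝕜 X), powEval_smul, zero_pow hN, zero_mul]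
    rw [e2, norm_zero, ← h0, zero_pow hN, zero_mul]
  · have e3 : ψ = (r : 𝕜) • ((r : 𝕜)⁻¹ • ψ) := by
      rw [smul_smul, mul_inv_cancel₀, one_smul]
      exact_mod_cast h0.ne'
    rw [e3, powEval_smul, norm_mul, norm_pow, RCLike.norm_ofReal, abs_of_pos h0]
    apply mul_le_mul_of_nonneg_left _ (by positivity)
    apply (norm_le_iff u (norm_nonneg _)).1 le_rfl
    rw [norm_smul, norm_inv, RCLike.norm_ofReal, abs_of_pos h0, inv_mul_le_iff₀ h0, mul_one]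
    exact hψr

variable (𝕜) in
/-- Finite nets in the unit sphere of a finite-dimensional subspace. -/
lemma exists_finite_net' (F : Submodule 𝕜 X) [FiniteDimensional 𝕜 F] {η : ℝ} (hη : 0 < η) :
    ∃ T : Finset X, (∀ x ∈ T, ‖x‖ = 1) ∧ ∀ x ∈ F, ‖x‖ = 1 → ∃ y ∈ T, ‖x - y‖ < η := by
  have : ProperSpace F := FiniteDimensional.proper 𝕜 F
  have hc : IsCompact (sphere (0 : F) 1) := isCompact_sphere _ _
  obtain ⟨t, ht, hcov⟩ := hc.elim_nhds_subcover (fun x => ball x η)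
    (fun x _ => ball_mem_nhds x hη)
  classical
  refine ⟨Finset.image (fun x : F => (x : X)) t, ?_, ?_⟩
  · intro x hx
    rw [Finset.mem_image] at hx
    obtain ⟨z, hz, rfl⟩ := hx
    simpa using ht z hz
  · intro x hx hx1
    have : (⟨x, hx⟩ : F) ∈ sphere (0 : F) 1 := by simpa using hx1
    have h2 := hcov this
    rw [mem_iUnion₂] at h2
    obtain ⟨z, hz, hxz⟩ := h2
    refine ⟨z, Finset.mem_image_of_mem (fun x : F => (x : X)) hz, ?_⟩
    rw [mem_ball, dist_eq_norm] at hxz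
    exact hxz

variable (𝕜) in
/-- In an almost square space, for every finite-dimensional subspace there is a unit vector almost
`ℓ_∞`-orthogonal to it. -/
lemma exists_orth (hX : ASQ X) (F : Submodule 𝕜 X) [FiniteDimensional 𝕜 F] {ε : ℝ} (hε : 0 < ε) :
    ∃ h : X, ‖h‖ = 1 ∧ ∀ φ : StrongDual 𝕜 X, ‖φ‖ ≤ 1 → ∀ x ∈ F,
      ‖φ x‖ ≤ (1 + ε - ‖φ h‖) * ‖x‖ := by
  obtain ⟨T, hT, hnet⟩ := exists_finite_net' 𝕜 F (η := ε / 2) (by positivity)
  obtain ⟨h, hh, hTh⟩ := hX T.card (fun i => (T.equivFin.symm i : X))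
    (fun i => hT _ (T.equivFin.symm i).2) (ε / 2) (by positivity)
  have hTh' : ∀ y ∈ T, ‖y + h‖ ≤ 1 + ε / 2 := by
    intro y hy
    have := hTh (T.equivFin ⟨y, hy⟩)
    simpa using this
  have hS : ∀ x ∈ F, ‖x‖ = 1 → ‖x + h‖ ≤ 1 + ε := by
    intro x hx hx1
    obtain ⟨y, hy, hxy⟩ := hnet x hx hx1
    have e : x + h = (x - y) + (y + h) := by abel
    rw [e]
    refine (norm_add_le _ _).trans ?_
    linarith [hTh' y hy]
  refine ⟨h, hh, fun φ hφ x hx => ?_⟩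
  -- first for unit vectors
  have hunit : ∀ z ∈ F, ‖z‖ = 1 → ‖φ z‖ + ‖φ h‖ ≤ 1 + ε := by
    intro z hz hz1
    obtain ⟨s, hs1, hs2⟩ : ∃ s : 𝕜, ‖s‖ = 1 ∧ s * φ z = (‖φ z‖ : 𝕜) := by
      by_cases h0 : φ z = 0
      · exact ⟨1, by simp, by simp [h0]⟩
      · refine ⟨(‖φ z‖ : 𝕜) / φ z, ?_, div_mul_cancel₀ _ h0⟩
        rw [norm_div, RCLike.norm_ofReal, abs_norm, div_self (norm_ne_zero_iff.2 h0)]
    obtain ⟨t, ht1, ht2⟩ : ∃ t : 𝕜, ‖t‖ = 1 ∧ t * φ h = (‖φ h‖ : 𝕜) := by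
      by_cases h0 : φ h = 0
      · exact ⟨1, by simp, by simp [h0]⟩
      · refine ⟨(‖φ h‖ : 𝕜) / φ h, ?_, div_mul_cancel₀ _ h0⟩
        rw [norm_div, RCLike.norm_ofReal, abs_norm, div_self (norm_ne_zero_iff.2 h0)]
    have ht0 : t ≠ 0 := by
      intro h0
      rw [h0, norm_zero] at ht1
      norm_num at ht1
    have e1 : φ (s • z + t • h) = ((‖φ z‖ + ‖φ h‖ : ℝ) : 𝕜) := by
      rw [map_add, map_smul, map_smul, smul_eq_mul, smul_eq_mul, hs2, ht2]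
      push_cast
      rfl
    have e2 : s • z + t • h = t • ((t⁻¹ * s) • z + h) := by
      rw [smul_add, smul_smul, ← mul_assoc, mul_inv_cancel₀ ht0, one_mul]
    have e3 : ‖s • z + t • h‖ ≤ 1 + ε := by
      rw [e2, norm_smul, ht1, one_mul]
      apply hS _ (F.smul_mem _ hz)
      rw [norm_smul, norm_mul, norm_inv, ht1, hs1, hz1]; norm_num
    calc ‖φ z‖ + ‖φ h‖ = ‖φ (s • z + t • h)‖ := by
          rw [e1, RCLike.norm_ofReal, abs_of_nonneg (by positivity)]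
      _ ≤ ‖φ‖ * ‖s • z + t • h‖ := φ.le_opNorm _
      _ ≤ 1 * (1 + ε) := mul_le_mul hφ e3 (norm_nonneg _) zero_le_one
      _ = 1 + ε := one_mul _
  by_cases hx0 : x = 0
  · simp [hx0]
  · have hxn : 0 < ‖x‖ := norm_pos_iff.2 hx0
    have h1 := hunit ((‖x‖ : 𝕜)⁻¹ • x) (F.smul_mem _ hx)
      (by rw [norm_smul, norm_inv, RCLike.norm_ofReal, abs_norm, inv_mul_cancel₀ hxn.ne'])
    rw [map_smul, norm_smul, norm_inv, RCLike.norm_ofReal, abs_norm] at h1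
    have h2 : ‖x‖⁻¹ * ‖φ x‖ ≤ 1 + ε - ‖φ h‖ := by linarith
    rw [inv_mul_le_iff₀ hxn] at h2
    linarith

/-- The element `h ⊗ ⋯ ⊗ h`. -/
noncomputable def power (h : X) : SymT 𝕜 X N :=
  (⟨PiTensorProduct.tprod 𝕜 (fun _ : Fin N => h), Submodule.subset_span ⟨h, rfl⟩⟩ :
    symTensor 𝕜 X N)

lemma powEval_power (φ : StrongDual 𝕜 X) (h : X) :
    powEval φ (power (𝕜 := 𝕜) (N := N) h) = (φ h) ^ N := powFun_tprod φ h

lemma norm_power (h : X) (hh : ‖h‖ = 1) : ‖power (𝕜 := 𝕜) (N := N) h‖ = 1 := by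
  apply le_antisymm
  · rw [norm_le_iff _ zero_le_one]
    intro φ hφ
    rw [powEval_power, norm_pow]
    apply pow_le_one₀ (norm_nonneg _)
    calc ‖φ h‖ ≤ ‖φ‖ * ‖h‖ := φ.le_opNorm h
      _ ≤ 1 * 1 := by rw [hh]; exact mul_le_mul_of_nonneg_right hφ zero_le_one
      _ = 1 := one_mul _
  · obtain ⟨φ, hφ1, hφ2⟩ := exists_dual_vector'' 𝕜 h
    have h1 := (norm_le_iff (power (𝕜 := 𝕜) (N := N) h) (norm_nonneg _)).1 le_rfl φ hφ1
    rw [powEval_power, hφ2, hh] at h1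
    simpa using h1

/-- The main estimate on the dense subspace. -/
lemma exists_almost (hX : ASQ X) (hN : N ≠ 0) {ι : Type*} [Finite ι] (u : ι → SymT 𝕜 X N)
    (C : ℝ) (hC : 1 ≤ C) (hu : ∀ i, ‖u i‖ ≤ C) {ε : ℝ} (hε : 0 < ε) :
    ∃ v : SymT 𝕜 X N, ‖v‖ = 1 ∧ ∀ i, ‖u i + v‖ ≤ C * (1 + ε) ^ N := by
  choose F hF1 hF2 using fun i => powEval_congr (u i)
  let G : Submodule 𝕜 X := ⨆ i, F i
  have hG : FiniteDimensional 𝕜 G := Submodule.finiteDimensional_iSup _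
  have hFG : ∀ i, F i ≤ G := fun i => le_iSup F i
  obtain ⟨h, hh, hest⟩ := exists_orth 𝕜 hX G hε
  refine ⟨power h, norm_power h hh, fun i => ?_⟩
  rw [norm_le_iff _ (by positivity)]
  intro φ hφ
  have hφh : ‖φ h‖ ≤ 1 := by
    calc ‖φ h‖ ≤ ‖φ‖ * ‖h‖ := φ.le_opNorm h
      _ ≤ 1 * 1 := by rw [hh]; exact mul_le_mul_of_nonneg_right hφ zero_le_one
      _ = 1 := one_mul _
  have h1 : ‖powEval φ (u i)‖ ≤ (1 + ε - ‖φ h‖) ^ N * ‖u i‖ := by
    apply powEval_le hN (u i) (F i) (hF2 i) φ _ (by linarith)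
    intro x hx
    exact hest φ hφ x (hFG i hx)
  rw [map_add, powEval_power]
  have h2 : (0 : ℝ) ≤ 1 + ε - ‖φ h‖ := by linarith
  calc ‖powEval φ (u i) + (φ h) ^ N‖ ≤ ‖powEval φ (u i)‖ + ‖(φ h) ^ N‖ := norm_add_le _ _
    _ ≤ (1 + ε - ‖φ h‖) ^ N * C + C * ‖φ h‖ ^ N := by
        rw [norm_pow]
        apply add_le_add
        · exact h1.trans (mul_le_mul_of_nonneg_left (hu i) (by positivity))
        · have : 0 ≤ ‖φ h‖ ^ N := by positivity
          nlinarith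
    _ = C * ((1 + ε - ‖φ h‖) ^ N + ‖φ h‖ ^ N) := by ring
    _ ≤ C * ((1 + ε - ‖φ h‖) + ‖φ h‖) ^ N := by
        apply mul_le_mul_of_nonneg_left _ (by linarith)
        exact pow_add_pow_le h2 (norm_nonneg _) hN
    _ = C * (1 + ε) ^ N := by congr 2; ring

theorem result (𝕜 X : Type*) [RCLike 𝕜] [NormedAddCommGroup X] [NormedSpace 𝕜 X]
    [CompleteSpace X] (hX : ASQ X) (N : ℕ) (hN : 1 ≤ N) : ASQ (SymInj 𝕜 X N) := by
  intro k x hx ε hε
  -- choose the parameters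
  set δ : ℝ := min (ε / 4) 1 with hδ
  have hδ0 : 0 < δ := lt_min (by positivity) one_pos
  have hδ1 : δ ≤ ε / 4 := min_le_left _ _
  have hδ2 : δ ≤ 1 := min_le_right _ _
  obtain ⟨ε', hε'0, hε'⟩ : ∃ ε' : ℝ, 0 < ε' ∧ (1 + ε') ^ N ≤ 1 + δ := by
    have hcont : Tendsto (fun t : ℝ => (1 + t) ^ N) (𝓝 0) (𝓝 ((1 + 0) ^ N)) :=
      (Continuous.pow (continuous_const.add continuous_id) N).tendsto 0
    rw [add_zero, one_pow] at hcont
    have h1 := hcont.eventually (Iio_mem_nhds (show (1 : ℝ) < 1 + δ by linarith))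
    rw [Metric.eventually_nhds_iff] at h1
    obtain ⟨r, hr, h2⟩ := h1
    refine ⟨r / 2, by positivity, le_of_lt (h2 ?_)⟩
    rw [dist_zero_right, Real.norm_of_nonneg (by positivity)]
    linarith
  -- approximate
  have happ : ∀ i, ∃ u : SymT 𝕜 X N, ‖x i - (u : SymInj 𝕜 X N)‖ < δ := by
    intro i
    obtain ⟨u, hu⟩ := UniformSpace.Completion.denseRange_coe.exists_dist_lt (x i) hδ0
    exact ⟨u, by rwa [dist_eq_norm] at hu⟩
  choose u hu using happ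
  have hun : ∀ i, ‖u i‖ ≤ 1 + δ := by
    intro i
    rw [← UniformSpace.Completion.norm_coe (u i)]
    have h1 := norm_sub_norm_le ((u i : SymInj 𝕜 X N)) (x i)
    rw [norm_sub_rev, hx] at h1
    linarith [hu i]
  obtain ⟨v, hv, huv⟩ := exists_almost hX (by omega) u (1 + δ) (by linarith) hun hε'0
  refine ⟨(v : SymInj 𝕜 X N), by rw [UniformSpace.Completion.norm_coe, hv], fun i => ?_⟩
  have e1 : x i + (v : SymInj 𝕜 X N) = (x i - (u i : SymInj 𝕜 X N)) +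
      ((u i + v : SymT 𝕜 X N) : SymInj 𝕜 X N) := by
    rw [UniformSpace.Completion.coe_add]; abel
  rw [e1]
  refine (norm_add_le _ _).trans ?_
  rw [UniformSpace.Completion.norm_coe]
  have h2 : (1 + δ) * (1 + ε') ^ N ≤ (1 + δ) * (1 + δ) :=
    mul_le_mul_of_nonneg_left hε' (by linarith)
  have h3 := huv i
  have h4 := (hu i).le
  nlinarith

end Pool.Agent.Results.MP_25d2c4_an.SymInjASQ
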